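import Pool.Agent.H44.ShellGood

/-!
Q1 for all triangulations that can be shelled from the quadrilateral `x, u, y, v`
with boundary cycles of length at most seven.
-/

namespace Pool.Agent.Results.MP_82211a_co.NarrowShelling

open H44Shell

theorem result {V : Type} [Finite V] (T : SimpleGraph V) (x u y v : V) (hT : FourConnected T)
    (hxu : T.Adj x u) (huy : T.Adj u y) (hyv : T.Adj y v) (hvx : T.Adj v x) (huv : T.Adj u v)
    (hxy : x ≠ y) (hn : ¬ T.Adj x y) (hS : Shell T 7 {x, u, y, v} [x, u, y, v])
    (hcol : ¬ (T ⊔ SimpleGraph.edge x y).Colorable 4) :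
    ∃ w, w ≠ x ∧ w ≠ y ∧ w ≠ u ∧ w ≠ v ∧
      ((T ⊔ SimpleGraph.edge x y).neighborSet w).ncard = 4 :=
  final good (by decide +kernel) (by decide +kernel) (by decide +kernel) (by decide +kernel)
    (by decide +kernel) T x u y v hT hxu huy hyv hvx huv hxy hn hS hcol

end Pool.Agent.Results.MP_82211a_co.NarrowShelling
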